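import Mathlib
import Pool.Agent.H.MP_9cfc50_lc.Defs

set_option autoImplicit false

namespace Pool.Agent.H.MP_d24a2a_lc

open Pool.Agent.H.MP_9cfc50_lc

variable {A : Type}

def UniRule (P : Set (Rule A)) : Prop := ∀ r ∈ P, ∀ r' ∈ P, r.1 = r'.1 → r = r'

def InternalTriple (P : Set (Rule A)) {n : ℕ} (c : Fin (n + 1) → A) (s : Fin (n + 1) → Bool) : Prop :=
  ∃ a b1 b2 : Fin (n + 1), c b1 ≠ c b2 ∧ Arc P false (c a) (c b1) ∧ Arc P true (c a) (c b2) ∧
    (¬ ∃ i, c i = c a ∧ c (i + 1) = c b1 ∧ s i = false) ∧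
    (¬ ∃ i, c i = c a ∧ c (i + 1) = c b2 ∧ s i = true)

def StableModel (P : Set (Rule A)) (M : Set A) : Prop :=
  IsLeast {N : Set A | ∀ r ∈ P, (∀ c ∈ r.2.2, c ∉ M) → (∀ b ∈ r.2.1, b ∈ N) → r.1 ∈ N} M

def F (P : Set (Rule A)) (X : Set A) (v : A) : Prop :=
  ∃ r ∈ P, r.1 = v ∧ (∀ b ∈ r.2.1, b ∈ X) ∧ ∀ c ∈ r.2.2, c ∉ X

def Bad (P : Set (Rule A)) (X : Set A) (u v : A) : Prop := ∃ s, Arc P s u v ∧ (u ∈ X ↔ s = true)

lemma F_iff {P : Set (Rule A)} (hP : UniRule P) (X : Set A) (v : A) :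
    F P X v ↔ (∃ r ∈ P, r.1 = v) ∧ ∀ u, ¬ Bad P X u v := by
  constructor
  · rintro ⟨r, hr, rfl, h1, h2⟩
    refine ⟨⟨r, hr, rfl⟩, ?_⟩
    rintro u ⟨s, ⟨r', hr', e, hu⟩, hs⟩
    obtain rfl := hP r' hr' r hr e
    cases s
    · simp at hu hs; exact hs (h1 u hu)
    · simp at hu hs; exact h2 u hu hs
  · rintro ⟨⟨r, hr, rfl⟩, h⟩
    refine ⟨r, hr, rfl, fun b hb => ?_, fun c hc hx => ?_⟩
    · by_contra hx
      exact h b ⟨false, ⟨r, hr, rfl, by simpa using hb⟩, by simpa using hx⟩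
    · exact h c ⟨true, ⟨r, hr, rfl, by simpa using hc⟩, by simpa using hx⟩

def T (P : Set (Rule A)) (V : Set A) (X : Set A) (w : A) : ℕ → Set A
  | 0 => {w}
  | k + 1 => T P V X w k ∪ {v | v ∈ V ∧ v ≠ w ∧ ((v ∈ X ∧ ∃ u ∈ T P V X w k, ∃ s, Arc P s u v) ∨
      (v ∉ X ∧ (∃ r ∈ P, r.1 = v) ∧ ∀ u, Bad P X u v → u ∈ T P V X w k))}

lemma T_mono (P : Set (Rule A)) (V X : Set A) (w : A) : Monotone (T P V X w) :=
  monotone_nat_of_le_succ fun _ => Set.subset_union_left

open Classical in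
noncomputable def rk (P : Set (Rule A)) (V X : Set A) (w v : A) : ℕ :=
  if h : ∃ k, v ∈ T P V X w k then Nat.find h else 0

lemma rk_le {P : Set (Rule A)} {V X : Set A} {w v : A} {k : ℕ} (h : v ∈ T P V X w k) :
    rk P V X w v ≤ k := by
  classical
  unfold rk
  rw [dif_pos ⟨k, h⟩]
  exact Nat.find_min' _ h

lemma rk_mem {P : Set (Rule A)} {V X : Set A} {w v : A} (h : ∃ k, v ∈ T P V X w k) :
    v ∈ T P V X w (rk P V X w v) := by
  classical
  unfold rk
  rw [dif_pos h]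
  exact Nat.find_spec h

lemma rk_step {P : Set (Rule A)} {V X : Set A} {w v : A} (h : ∃ k, v ∈ T P V X w k) (hv : v ≠ w) :
    ∃ k, rk P V X w v = k + 1 ∧ v ∈ V ∧ ((v ∈ X ∧ ∃ u ∈ T P V X w k, ∃ s, Arc P s u v) ∨
      (v ∉ X ∧ (∃ r ∈ P, r.1 = v) ∧ ∀ u, Bad P X u v → u ∈ T P V X w k)) := by
  have h1 := rk_mem h
  cases e : rk P V X w v with
  | zero => rw [e] at h1; exact absurd h1 hv
  | succ k =>
    rw [e] at h1
    rcases h1 with h1 | ⟨h1, _, h2⟩
    · have := rk_le h1; omega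
    · exact ⟨k, rfl, h1, h2⟩

open Classical in
def G (P : Set (Rule A)) (V X : Set A) (w u v : A) : Prop :=
  (∃ k, u ∈ T P V X w k) ∧ (∃ k, v ∈ T P V X w k) ∧ rk P V X w u < rk P V X w v ∧
    Arc P (decide (u ∈ X) != decide (v ∈ X)) u v

lemma G_pred {P : Set (Rule A)} (hP : UniRule P) {V X : Set A} {w v : A}
    (hX : ∀ v ∈ V, v ≠ w → (v ∈ X ↔ F P X v)) (h : ∃ k, v ∈ T P V X w k) (hv : v ≠ w) :
    ∃ u, G P V X w u v := by
  classical
  obtain ⟨k, e, hV, ⟨h1, u, hu, s, hs⟩ | ⟨h1, h2, h3⟩⟩ := rk_step h hv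
  · refine ⟨u, ⟨k, hu⟩, h, by have := rk_le hu; omega, ?_⟩
    have hb := ((F_iff hP X v).1 ((hX v hV hv).1 h1)).2 u
    have : ¬ (u ∈ X ↔ s = true) := fun h => hb ⟨s, hs, h⟩
    have e2 : (decide (u ∈ X) != decide (v ∈ X)) = s := by
      cases s <;> by_cases hu : u ∈ X <;> simp_all
    rwa [e2]
  · have : ¬ F P X v := fun h => h1 ((hX v hV hv).2 h)
    rw [F_iff hP] at this
    have : ∃ u, Bad P X u v := by
      by_contra hc
      exact this ⟨h2, fun u hu => hc ⟨u, hu⟩⟩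
    obtain ⟨u, hu⟩ := this
    refine ⟨u, ⟨k, h3 u hu⟩, h, by have := rk_le (h3 u hu); omega, ?_⟩
    obtain ⟨s, hs, hs'⟩ := hu
    have e2 : (decide (u ∈ X) != decide (v ∈ X)) = s := by
      cases s <;> by_cases hu : u ∈ X <;> simp_all
    rwa [e2]

lemma exists_path {P : Set (Rule A)} (hP : UniRule P) {V X : Set A} {w : A}
    (hX : ∀ v ∈ V, v ≠ w → (v ∈ X ↔ F P X v)) :
    ∀ m v, rk P V X w v = m → (∃ k, v ∈ T P V X w k) →
      ∃ (n : ℕ) (p : ℕ → A), p 0 = w ∧ p n = v ∧ ∀ i < n, G P V X w (p i) (p (i + 1)) := by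
  intro m
  induction m using Nat.strong_induction_on with
  | _ m ih =>
    intro v hm h
    by_cases hv : v = w
    · exact ⟨0, fun _ => w, rfl, hv.symm, fun i hi => absurd hi (Nat.not_lt_zero _)⟩
    obtain ⟨u, hu⟩ := G_pred hP hX h hv
    obtain ⟨n, p, p0, pn, hp⟩ := ih _ (hm ▸ hu.2.2.1) u rfl hu.1
    refine ⟨n + 1, fun i => if i ≤ n then p i else v, by simp [p0], by simp, fun i hi => ?_⟩
    by_cases hin : i < n
    · simp only [if_pos hin.le, if_pos (Nat.succ_le_of_lt hin)]; exact hp i hin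
    · obtain rfl : i = n := by omega
      simp [pn, hu]

lemma no_return {P : Set (Rule A)} (hP : UniRule P)
    (H : ∀ (n : ℕ) (c : Fin (n + 1) → A) (s : Fin (n + 1) → Bool), IsCycle P c s →
      Odd (negCount s) → InternalTriple P c s)
    {V X : Set A} {w : A} (hX : ∀ v ∈ V, v ≠ w → (v ∈ X ↔ F P X v)) (hw : w ∉ X) (hF : F P X w)
    {u0 : A} (h0 : ∃ k, u0 ∈ T P V X w k) {s0 : Bool} (hs0 : Arc P s0 u0 w) : False := by
  classical
  have hex : ∃ n, ∃ p : ℕ → A, p 0 = w ∧ (∃ s, Arc P s (p n) w) ∧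
      ∀ i < n, G P V X w (p i) (p (i + 1)) := by
    obtain ⟨n, p, p0, pn, hp⟩ := exists_path hP hX _ u0 rfl h0
    exact ⟨n, p, p0, ⟨s0, pn ▸ hs0⟩, hp⟩
  obtain ⟨p, p0, ⟨sl, hsl⟩, hp⟩ := Nat.find_spec hex
  have hmin := fun m => Nat.find_min hex (m := m)
  set n := Nat.find hex
  have hlt : ∀ j ≤ n, ∀ i < j, rk P V X w (p i) < rk P V X w (p j) := by
    intro j
    induction j with
    | zero => intro _ i hi; omega
    | succ j ih =>
      intro hj i hi
      have h1 := (hp j (by omega)).2.2.1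
      rcases Nat.lt_succ_iff_lt_or_eq.1 hi with h | rfl
      · exact (ih (by omega) i h).trans h1
      · exact h1
  have hL : ∀ i ≤ n, ∃ k, p i ∈ T P V X w k := by
    intro i hi
    rcases i with _ | i
    · exact ⟨0, p0⟩
    · exact (hp i (by omega)).2.1
  have hsl' : sl = !decide (p n ∈ X) := by
    have hb := ((F_iff hP X w).1 hF).2 (p n)
    have : ¬ (p n ∈ X ↔ sl = true) := fun h => hb ⟨sl, hsl, h⟩
    cases sl <;> by_cases hu : p n ∈ X <;> simp_all
  let c : Fin (n + 1) → A := fun i => p i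
  let s : Fin (n + 1) → Bool := fun i =>
    if i = Fin.last n then sl else decide (c i ∈ X) != decide (c (i + 1) ∈ X)
  have hsucc : ∀ i : Fin (n + 1), i ≠ Fin.last n → ((i + 1 : Fin (n + 1)) : ℕ) = i + 1 :=
    fun i hi => Fin.val_add_one_of_lt (Fin.lt_last_iff_ne_last.2 hi)
  have hcyc : IsCycle P c s := by
    constructor
    · intro i j h
      by_contra hne
      have h' : p i = p j := h
      rcases lt_or_gt_of_ne (Fin.val_ne_of_ne hne) with h1 | h1
      · have := hlt j (by omega) i h1; rw [h'] at this; omega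
      · have := hlt i (by omega) j h1; rw [h'] at this; omega
    · intro i
      by_cases hi : i = Fin.last n
      · subst hi
        simpa [c, s, p0] using hsl
      · have h1 : (i : ℕ) < n := Fin.lt_last_iff_ne_last.2 hi
        have := (hp i h1).2.2.2
        simp only [c, s, if_neg hi, hsucc i hi]
        exact this
  have hodd : Odd (negCount s) := by
    rw [← ZMod.natCast_eq_one_iff_odd, negCount_cast]
    have h1 := sum_shift (fun i => if c i ∈ X then (1 : ZMod 2) else 0)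
    have h2 : ∑ i : Fin (n + 1), (if i = Fin.last n then (1 : ZMod 2) else 0) = 1 := by simp
    have h3 := congrArg₂ (· + ·) h1 h2
    simp only [zero_add, ← Finset.sum_add_distrib] at h3
    refine Eq.trans ?_ h3
    refine Finset.sum_congr rfl fun i _ => ?_
    by_cases hi : i = Fin.last n
    · subst hi
      have e0 : c (Fin.last n + 1) = w := by simp [c, p0]
      have e1 : c (Fin.last n) = p n := by simp [c]
      simp only [s, if_true, e0, e1, hsl', if_neg hw]
      by_cases hu : p n ∈ X <;> simp [hu]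
      decide
    · simp only [s, if_neg hi]
      by_cases h1 : c i ∈ X <;> by_cases h2 : c (i + 1) ∈ X <;> simp [h1, h2]
      decide
  obtain ⟨a, b1, b2, -, A1, A2, N1, N2⟩ := H n c s hcyc hodd
  have key : ∀ (b : Fin (n + 1)) (t : Bool), Arc P t (c a) (c b) → (c a ∈ X ↔ t = true) →
      (¬ ∃ i, c i = c a ∧ c (i + 1) = c b ∧ s i = t) → False := by
    intro b t hA ht hN
    have hbad : Bad P X (p a) (p b) := ⟨t, hA, ht⟩
    have hnF : ¬ F P X (p b) := fun h => ((F_iff hP X _).1 h).2 _ hbad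
    have hbw : p b ≠ w := fun h => hnF (h ▸ hF)
    obtain ⟨k, e, hV, h⟩ := rk_step (hL b (by omega)) hbw
    have hbX : p b ∉ X := fun h => hnF ((hX _ hV hbw).1 h)
    rcases h with ⟨h1, -⟩ | ⟨-, -, h3⟩
    · exact hbX h1
    have hr : rk P V X w (p a) < rk P V X w (p b) := by have := rk_le (h3 _ hbad); omega
    have hab : (a : ℕ) < b := by
      by_contra hc
      rcases Nat.lt_or_eq_of_le (not_lt.1 hc) with h | h
      · have := hlt a (by omega) b h; omega
      · rw [h] at hr; omega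
    have et : (decide (p a ∈ X) != decide (p b ∈ X)) = t := by
      have ht' : p a ∈ X ↔ t = true := ht
      cases t <;> by_cases hu : p a ∈ X <;> simp_all
    have hG : G P V X w (p a) (p b) := ⟨hL a (by omega), hL b (by omega), hr, by rw [et]; exact hA⟩
    have hal : a ≠ Fin.last n := by
      intro h; have := b.2; rw [h] at hab; simp at hab; omega
    by_cases hb : (b : ℕ) = a + 1
    · have : a + 1 = b := Fin.ext (by rw [hsucc a hal, hb])
      exact hN ⟨a, rfl, by rw [this], by simp only [s, if_neg hal, this]; exact et⟩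
    · obtain ⟨d, hd⟩ : ∃ d, (b : ℕ) = a + 1 + (d + 1) := ⟨b - a - 2, by omega⟩
      have hbn : (b : ℕ) ≤ n := by omega
      refine hmin (n - (d + 1)) (by omega) ⟨fun i => if i ≤ a then p i else p (i + (d + 1)),
        by simp [p0], ⟨sl, ?_⟩, fun i hi => ?_⟩
      · have : ¬ n - (d + 1) ≤ a := by omega
        simp only [if_neg this]
        rwa [Nat.sub_add_cancel (by omega)]
      · rcases lt_trichotomy i a with h | h | h
        · simp only [if_pos h.le, if_pos (Nat.succ_le_of_lt h)]; exact hp i (by omega)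
        · subst h
          simp only [le_refl, if_true, if_neg (Nat.not_succ_le_self _), ← hd]; exact hG
        · have h1 : ¬ i ≤ a := by omega
          have h2 : ¬ i + 1 ≤ a := by omega
          simp only [if_neg h1, if_neg h2]
          have := hp (i + (d + 1)) (by omega)
          rwa [show i + (d + 1) + 1 = i + 1 + (d + 1) by ring] at this
  by_cases hu : c a ∈ X
  · exact key b2 true A2 (by simp [hu]) N2
  · exact key b1 false A1 (by simp [hu]) N1

lemma T_sub {P : Set (Rule A)} {V X : Set A} {w : A} (hw : w ∈ V) (k : ℕ) : T P V X w k ⊆ V := by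
  induction k with
  | zero => intro v hv; rw [show v = w from hv]; exact hw
  | succ k ih => rintro v (h | h); exacts [ih h, h.1]

lemma F_congr {P : Set (Rule A)} {X Y : Set A} {v : A}
    (h : ∀ u s, Arc P s u v → (u ∈ Y ↔ u ∈ X)) (hF : F P X v) : F P Y v := by
  obtain ⟨r, hr, rfl, h1, h2⟩ := hF
  exact ⟨r, hr, rfl, fun b hb => (h b false ⟨r, hr, rfl, by simpa using hb⟩).2 (h1 b hb),
    fun c hc hy => h2 c hc ((h c true ⟨r, hr, rfl, by simpa using hc⟩).1 hy)⟩

lemma fixed [Finite A] {P : Set (Rule A)} (hP : UniRule P)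
    (H : ∀ (n : ℕ) (c : Fin (n + 1) → A) (s : Fin (n + 1) → Bool), IsCycle P c s →
      Odd (negCount s) → InternalTriple P c s) :
    ∀ (m : ℕ) (V : Set A), V.ncard = m → ∀ ρ : Set A,
      ∃ X : Set A, (∀ v ∉ V, (v ∈ X ↔ v ∈ ρ)) ∧ ∀ v ∈ V, (v ∈ X ↔ F P X v) := by
  intro m
  induction m using Nat.strong_induction_on with
  | _ m ih =>
    intro V hm ρ
    rcases V.eq_empty_or_nonempty with rfl | ⟨w, hw⟩
    · exact ⟨ρ, fun _ _ => Iff.rfl, fun v hv => absurd hv (Set.notMem_empty v)⟩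
    have hlt : (V \ {w}).ncard < m := hm ▸ Set.ncard_diff_singleton_lt_of_mem hw (Set.toFinite V)
    obtain ⟨X, X1, X2⟩ := ih _ hlt (V \ {w}) rfl (ρ \ {w})
    have hwX : w ∉ X := fun h => ((X1 w (by simp)).1 h).2 rfl
    have X1' : ∀ v ∉ V, (v ∈ X ↔ v ∈ ρ) := fun v hv => by
      have : v ≠ w := fun h => hv (h ▸ hw)
      rw [X1 v (fun h => hv h.1)]; simp [this]
    have X2' : ∀ v ∈ V, v ≠ w → (v ∈ X ↔ F P X v) := fun v hv h => X2 v ⟨hv, h⟩
    by_cases hF : F P X w
    swap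
    · refine ⟨X, X1', fun v hv => ?_⟩
      by_cases h : v = w
      · subst h; simp [hwX, hF]
      · exact X2' v hv h
    let L : Set A := {v | ∃ k, v ∈ T P V X w k}
    have hLV : L ⊆ V := fun v ⟨k, hk⟩ => T_sub hw k hk
    have hlt2 : (L \ {w}).ncard < m :=
      lt_of_le_of_lt (Set.ncard_le_ncard (Set.diff_subset_diff_left hLV) (Set.toFinite _)) hlt
    obtain ⟨Y, Y1, Y2⟩ := ih _ hlt2 (L \ {w}) rfl (insert w X)
    have hwL : w ∈ L := ⟨0, rfl⟩
    have Y1' : ∀ v ∉ L, (v ∈ Y ↔ v ∈ X) := fun v hv => by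
      have : v ≠ w := fun h => hv (h ▸ hwL)
      rw [Y1 v (fun h => hv h.1)]; simp [this]
    refine ⟨Y, fun v hv => (Y1' v fun h => hv (hLV h)).trans (X1' v hv), fun v hv => ?_⟩
    by_cases h : v = w
    · subst h
      have h1 : v ∈ Y := (Y1 v (by simp)).2 (by simp)
      have h2 : F P Y v := F_congr (fun u s hs => Y1' u fun hu => no_return hP H X2' hwX hF hu hs) hF
      simp [h1, h2]
    by_cases hvL : v ∈ L
    · exact Y2 v ⟨hvL, h⟩
    rw [Y1' v hvL]
    by_cases hvX : v ∈ X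
    · have : F P Y v := F_congr (fun u s hs => Y1' u fun ⟨k, hk⟩ =>
        hvL ⟨k + 1, Or.inr ⟨hv, h, Or.inl ⟨hvX, u, hk, s, hs⟩⟩⟩) ((X2' v hv h).1 hvX)
      simp [hvX, this]
    · have : ¬ F P Y v := by
        intro hY
        obtain ⟨h1, h2⟩ := (F_iff hP Y v).1 hY
        have h3 : ∀ u, Bad P X u v → u ∈ L := by
          rintro u ⟨s, hs, hs'⟩
          by_contra hu
          exact h2 u ⟨s, hs, (Y1' u hu).trans hs'⟩
        obtain ⟨K, hK⟩ := (Set.finite_range (rk P V X w)).bddAbove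
        exact hvL ⟨K + 1, Or.inr ⟨hv, h, Or.inr ⟨hvX, h1, fun u hu =>
          T_mono P V X w (hK ⟨u, rfl⟩) (rk_mem (h3 u hu))⟩⟩⟩
      simp [hvX, this]

theorem main [Finite A] (P : Set (Rule A)) (hP : UniRule P)
    (H : ∀ (n : ℕ) (c : Fin (n + 1) → A) (s : Fin (n + 1) → Bool), IsCycle P c s →
      Odd (negCount s) → InternalTriple P c s) : ∃ M, StableModel P M := by
  let V : Set A := {v | ¬ Relation.TransGen (Arc P false) v v}
  obtain ⟨X, X1, X2⟩ := fixed hP H _ V rfl ∅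
  refine ⟨X, fun r hr hn hp => ?_, fun N hN => ?_⟩
  · by_cases hV : r.1 ∈ V
    · exact (X2 _ hV).2 ⟨r, hr, rfl, hp, hn⟩
    · have h1 : Relation.TransGen (Arc P false) r.1 r.1 := not_not.1 hV
      obtain ⟨u, hu1, hu2⟩ := Relation.TransGen.tail'_iff.1 h1
      have h2 : u ∉ V := not_not.2 (Relation.TransGen.head' hu2 hu1)
      obtain ⟨r', hr', e, hu⟩ := hu2
      obtain rfl := hP r' hr' r hr e
      exact absurd ((X1 u h2).1 (hp u (by simpa using hu))) (Set.notMem_empty u)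
  · let R : A → A → Prop := fun u v => u ∈ V ∧ Relation.TransGen (Arc P false) u v
    have : IsTrans A R := ⟨fun a b c h1 h2 => ⟨h1.1, h1.2.trans h2.2⟩⟩
    have : Std.Irrefl R := ⟨fun a h => h.1 h.2⟩
    intro v
    induction v using (Finite.wellFounded_of_trans_of_irrefl R).induction with
    | _ v ih =>
      intro hv
      have hV : ∀ u ∈ X, u ∈ V := fun u hu => by
        by_contra h; exact absurd ((X1 u h).1 hu) (Set.notMem_empty u)
      obtain ⟨r, hr, rfl, h1, h2⟩ := (X2 v (hV v hv)).1 hv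
      exact hN r hr h2 fun b hb => ih b ⟨hV b (h1 b hb),
        Relation.TransGen.single ⟨r, hr, rfl, by simpa using hb⟩⟩ (h1 b hb)

end Pool.Agent.H.MP_d24a2a_lc
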